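import Mathlib
import Pool.Agent.H905R3.QMain

/-!
# Degree growth of a dominant rational self-map of `ℙ³`
-/

set_option autoImplicit false

namespace Pool.Agent.Results.MP_55ef7c_ag.QuarticDegreeGrowth

open Pool.Agent.H905R3 Filter Topology

universe u

/-- `F ≍ G`: there are constants `c₁, c₂, c₃ > 0` with `c₁ F(n) ≤ G(n) ≤ c₂ F(n)` for all
`n ≥ c₃`. -/
def Comparable (F G : ℕ → ℝ) : Prop :=
  ∃ c₁ c₂ c₃ : ℝ, 0 < c₁ ∧ 0 < c₂ ∧ 0 < c₃ ∧
    ∀ n : ℕ, c₃ ≤ n → c₁ * F n ≤ G n ∧ G n ≤ c₂ * F n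

/-- Over every field of characteristic zero there is a dominant rational self-map `f` of `ℙ³` of
dynamical degree `1` such that `deg (f^n) ≍ n^ℓ 1^n` fails for every integer `0 ≤ ℓ ≤ 3`.
Here `g n` is the `n`-th iterate of `f`, with common factors removed. -/
theorem result (K : Type u) [Field K] [CharZero K] :
    ∃ f : RatMap K 3, f.Dominant ∧ ∃ g : ℕ → RatMap K 3, (∀ n, f.IsIterate n (g n)) ∧
      Tendsto (fun n : ℕ => ((g n).degree : ℝ) ^ ((1 : ℝ) / n)) atTop (𝓝 1) ∧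
      ∀ ℓ : ℕ, ℓ ≤ 3 →
        ¬ Comparable (fun n => ((g n).degree : ℝ)) (fun n => (n : ℝ) ^ ℓ * 1 ^ n) := by
  obtain ⟨f, hdom, g, hg, hpos, ⟨C, hC, hup⟩, E, hE, hlow⟩ := Quartic.exists_map K
  refine ⟨f, hdom, g, hg, ?_, ?_⟩
  · exact Quartic.root_limit (fun n => ((g n).degree : ℝ)) C 18 (by exact_mod_cast hC)
      (fun n => by exact_mod_cast hpos n) (fun n hn => by exact_mod_cast hup n hn)
  · rintro l hl ⟨c₁, c₂, c₃, h1, -, -, h⟩
    refine Quartic.not_growth (fun n => (g n).degree) E hE hlow l hl c₁ h1 c₃ fun n hn => ?_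
    have := (h n hn).1
    simpa using this

end Pool.Agent.Results.MP_55ef7c_ag.QuarticDegreeGrowth
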